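import Pool.Agent.H255R.MR.Map

/-!
# De Rham-Betti classes on products of regular surfaces and on products of curves
-/

open CategoryTheory AlgebraicGeometry

universe u v w x

namespace Pool.Agent.Results.MP_470b79_ag.RegularSurfaces

open Pool.Agent.H914 Pool.Agent.H914.VarClass Pool.Agent.H914.VarClass.Obj Pool.Agent.W492.BB
  Pool.Agent.W550.Corr Pool.Agent.TH133 Pool.Agent.H255R.HR Pool.Agent.H255R.MR

/-- The classes of the family `𝓓` (the de Rham-Betti classes) of weight `r ≤ R` on `X` are the images of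
classes of weight `r` in `M(X)` (the motivated or the algebraic classes). -/
def DeRhamBetti {k : Type u} [Field k] {𝒱 : VarClass k} {C : TheoryData.{u, v, 0} 𝒱 ℚ}
    {M D : ModData.{u, v, x} C} (φ : ∀ X, M.A X → D.A X) (𝓜 : Fam M) (𝓓 : Fam D) (R : ℤ)
    (X : 𝒱.Obj) : Prop :=
  ∀ r ≤ R, ∀ y : D.A X, 𝓓.Mem X r y → ∃ t : M.A X, 𝓜.Mem X r t ∧ φ X t = y

/-- Consider the smooth projective varieties `X` over `ℚ̄`. Let `M(X)` be the sum of the spaces of
motivated cycles (or of the rational Chow groups) of codimension `r`, let `D(X)` be the sum over `r` of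
the spaces `H^*_dR(X)(r) × H^*(X(ℂ), ℚ(r))`, and let `φ` be the cycle class map. The family `𝓓` consists
of the de Rham-Betti classes: the pairs of elements which agree in `H^*(X(ℂ), ℂ)`. More generally,
let `φ : M → D` be a transformation of module theories over the Chow groups with families `𝓜`
and `𝓓`.

Let `𝒞` be a class of curves with `HasGalQuotients` (for example all curves, or one hyperelliptic
curve). For all varieties `U` and all `R` and `N` the following statements are equivalent.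

1. The de Rham-Betti classes in the twists at most `R` are motivated (algebraic) for the varieties
`U × A` and `U × A × S`, where `A` is a product of at most `N` regular surfaces dominated by products
of two curves in `𝒞`, and `S` is a curve in `𝒞`.
2. The same without the condition that the surfaces be regular.
3. The same holds for `U × W`, where `W` is a product of at most `2 N + 1` curves in `𝒞`.
4. The same holds for all varieties which are dominated by varieties `U × W` as in 3. -/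
theorem result {k : Type u} [Field k] {𝒱 : VarClass k} (C : TheoryData.{u, v, 0} 𝒱 ℚ)
    [IsChowProj C] {F : Type w} [Field F] [CharZero F] (H : WeilTheoryData.{u, v, w} C F)
    [IsWeilProj H] (M D : ModData.{u, v, x} C) (hM : IsModTheory M) (hD : IsModTheory D)
    (φ : ∀ X, M.A X → D.A X) (hφ : IsTransformation M D φ) (𝓜 : Fam M) (𝓓 : Fam D)
    (𝒞 : 𝒱.Obj → Prop) (hG : HasGalQuotients.{u, v, w, x} H 𝒞) (U : 𝒱.Obj) (R : ℤ) (N : ℕ) :
    List.TFAE [
      ∀ m ≤ N, ∀ A : 𝒱.Obj, IsProdOf U (IsRegDominated.{u, v, w, x} H 𝒞) m A →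
        DeRhamBetti φ 𝓜 𝓓 R A ∧ ∀ S : 𝒱.Obj, 𝒞 S → DeRhamBetti φ 𝓜 𝓓 R (A.prod S),
      ∀ m ≤ N, ∀ A : 𝒱.Obj, IsProdOf U (IsDominated.{u, v, x} C 𝒞) m A →
        DeRhamBetti φ 𝓜 𝓓 R A ∧ ∀ S : 𝒱.Obj, 𝒞 S → DeRhamBetti φ 𝓜 𝓓 R (A.prod S),
      ∀ l ≤ 2 * N + 1, ∀ W : 𝒱.Obj, IsProdOf U 𝒞 l W → DeRhamBetti φ 𝓜 𝓓 R W,
      ∀ l ≤ 2 * N + 1, ∀ W X : 𝒱.Obj, IsProdOf U 𝒞 l W → IsDominatedBy C W X → DeRhamBetti φ 𝓜 𝓓 R X] :=
  tfae1 (M := D) (𝓜 := 𝓓) (𝓝 := imFam hφ 𝓜) hG U R N _
    fun X => (good_surj hφ 𝓜 𝓓 R X).symm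

end Pool.Agent.Results.MP_470b79_ag.RegularSurfaces
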