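import Pool.Agent.V11322.QR.Rel
import Pool.Agent.Y123.GN.B4

set_option autoImplicit false

/-!
# `Ω^dRB` of `M_0 ⊕ ℚ(-w) ⊕ M_1 ⊕ … ⊕ M_N` for an arbitrary object `M_0`: de Rham-Betti subobjects of
the endomorphisms decide

Let `K` be a field of algebraic numbers and `M_0` any de Rham-Betti object over `K`, for example the
realisation of any André motive over `K`; its period matrix `C₀` is any invertible complex matrix. Let
`ℚ(-w)` be an object of rank one with period `l` (for example `l = (2πi)^w`), and let `M_1, …, M_N` be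
objects of even rank `n` with alternating polarisations `M_j ⊗ M_j → ℚ(-w)`, for instance `h^1` of
abelian varieties of dimension `n / 2` over `K`, `w = 1`. The polarisation of `M_j` is given by a matrix
`Q_j` over `K` on the de Rham side and by `polB n` on the Betti side (every nondegenerate alternating
form over `ℚ` has this matrix in some basis), and the period matrix `c_j` satisfies
`c_j Q_j c_jᵀ = l • polB n`. We suppose that no `c_j` is proportional to a matrix of algebraic numbers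
(for `h^1` of abelian varieties this is a theorem of Schneider and Wüstholz). Put
`M = M_0 ⊕ ℚ(-w) ⊕ M_1 ⊕ … ⊕ M_N`.

A de Rham-Betti subobject of `End(M)` with coefficients in `K` (`IsSubobject`) is a pair of subspaces
`L` of `End(M_B)` and `R` of `End(M_dR)`, both rational over `K`, with `L = c R c⁻¹`. We prove that the
following are equivalent:

1. (`SubStable`) every de Rham-Betti subobject of `End(M)` is stable under the conjugation by
`1 × Sp_n^N`;

2. (`AllFibre`) every `K`-subtorsor `T` of `Iso(M_dR, M_B)` which contains the period matrix and respects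
the decomposition and the polarisations is the fibre product `T = T_0 ×_(G_m) (torsor of the
polarisations)`, where `T_0`, the projection of `T` to `M_0 ⊕ ℚ(-w)`, is a `K`-subtorsor;

3. (`SmallestFibre`) the smallest `K`-subtorsor containing the period matrix of `M` is the fibre product
of the one of `M_0 ⊕ ℚ(-w)` and the torsor of the polarisations.

They hold if (`LinearTrivial`) the relations with coefficients in `K` between the entries of one matrix
`c⁻¹ A c`, `A ∈ End(M_B)` rational over `K`, that is certain linear relations between the periods of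
`End(M)`, remain true if `c_1, …, c_N` are replaced by any matrices `X_j` with `X_j Q_j X_jᵀ = l polB n`.
If they hold then (`ClassesInvariant`) all de Rham-Betti classes with coefficients in `K` in all tensor
spaces `M^⊗p ⊗ (M^∨)^⊗q` are invariant under `1 × Sp_n^N`.

Consequences for the conjecture. 2 applies to `T = Ω^dRB_M`, as the polarisations are de Rham-Betti
classes. The polarisations are algebraic, so `Ω^And_M` is contained in the fibre product of
`Ω^And` of `M_0 ⊕ ℚ(-w)` and the torsor of the polarisations. Hence if every de Rham-Betti subobject of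
`End(M)` is stable under `1 × Sp_n^N` then `Ω^dRB_M = Ω^And_M` if and only if this holds for
`M_0 ⊕ ℚ(-w)`. The condition on all tensor spaces of `M` is reduced to a condition on the single
space `End(M)` and to the object `M_0 ⊕ ℚ(-w)`; nothing is supposed about `M_0`.

The proof: the left and the right Lie algebra of a subtorsor `T` containing `c` form a subobject of
`End(M)`. If it is stable under `Sp_n^N`, the logarithmic derivatives of the period matrix show that
it contains the symplectic algebras. Then `T` is stable under `1 × Sp_n^N`, and the projection of `T`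
is closed by descent. Conversely the isomorphisms that respect a given subobject form a subtorsor.
The work on the Lie algebras of subtorsors and on their projections is due to the author of
`Pool/Agent/Y123/SR` (used there for hyperelliptic curves, `RelativeSubtorsors`).
-/

open Matrix

namespace Pool.Agent.Results.MP_470b79_ag.RelativeSubobjects

open Pool.Agent.V11322.QR (IsSubobject RationalOver)

/-- `T` is (the set of complex points of) a `K`-subtorsor of `GL_B = Iso (M_dR, M_B)`: it is closed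
under `x y⁻¹ z`, and it is defined in `GL_B` by polynomials with coefficients in `K`. -/
def IsSubtorsor (K : Subfield ℂ) {B : Type} [Fintype B] [DecidableEq B] (T : Set (Matrix B B ℂ)) :
    Prop :=
  (∀ x ∈ T, ∀ y ∈ T, ∀ z ∈ T, x * y⁻¹ * z ∈ T) ∧ ∃ I : Set (MvPolynomial (B × B) K),
    ∀ x : Matrix B B ℂ, x ∈ T ↔ IsUnit x ∧ ∀ p ∈ I,
      MvPolynomial.eval (fun b => x b.1 b.2) (MvPolynomial.map (algebraMap K ℂ) p) = 0

/-- `Ω` is the smallest `K`-subtorsor which contains the period matrix `c` -/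
def IsOmega (K : Subfield ℂ) {B : Type} [Fintype B] [DecidableEq B] (c : Matrix B B ℂ)
    (Ω : Set (Matrix B B ℂ)) : Prop :=
  IsSubtorsor K Ω ∧ c ∈ Ω ∧ ∀ T : Set (Matrix B B ℂ), IsSubtorsor K T → c ∈ T → Ω ⊆ T

/-- the index set for a basis of `M = M_0 ⊕ ℚ(-w) ⊕ M_1 ⊕ … ⊕ M_N` -/
abbrev Ix (r n N : ℕ) : Type := (Fin r ⊕ Unit) ⊕ (Fin n × Fin N)

variable {r n N : ℕ}

/-- the block matrix `x ⊕ μ`; for the period matrix `x` of `M_0` and `μ = l` the period matrix of
`M_0 ⊕ ℚ(-w)` -/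
def withTate (x : Matrix (Fin r) (Fin r) ℂ) (μ : ℂ) : Matrix (Fin r ⊕ Unit) (Fin r ⊕ Unit) ℂ :=
  Matrix.fromBlocks x 0 0 (Matrix.of fun _ _ => μ)

/-- the block matrix `x ⊕ μ ⊕ X_1 ⊕ … ⊕ X_N` -/
noncomputable def total (x : Matrix (Fin r) (Fin r) ℂ) (μ : ℂ)
    (X : Fin N → Matrix (Fin n) (Fin n) ℂ) : Matrix (Ix r n N) (Ix r n N) ℂ :=
  Matrix.fromBlocks (withTate x μ) 0 0 (Matrix.blockDiagonal X)

/-- the alternating form with entries `2 (-1)^r` at `(r, s)`, `|r - s| = 1` -/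
def polB (n : ℕ) : Matrix (Fin n) (Fin n) ℚ :=
  Matrix.of fun r s => if (r : ℕ) = s + 1 ∨ (s : ℕ) = r + 1 then 2 * (-1) ^ (r : ℕ) else 0

/-- `(X_1, …, X_N)` respects the polarisations, with multiplier `μ` -/
def Respects (Q : Fin N → Matrix (Fin n) (Fin n) ℂ) (X : Fin N → Matrix (Fin n) (Fin n) ℂ)
    (μ : ℂ) : Prop :=
  ∀ j, X j * Q j * (X j)ᵀ = μ • (polB n).map (algebraMap ℚ ℂ)

/-- `(g_1, …, g_N)` is an `N`-tuple of symplectic matrices (on the Betti side) -/
def Symplectic (g : Fin N → Matrix (Fin n) (Fin n) ℂ) : Prop :=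
  ∀ j, g j * (polB n).map (algebraMap ℚ ℂ) * (g j)ᵀ = (polB n).map (algebraMap ℚ ℂ)

/-- the matrices which respect the decomposition and the polarisations -/
def respecting (r : ℕ) (Q : Fin N → Matrix (Fin n) (Fin n) ℂ) :
    Set (Matrix (Ix r n N) (Ix r n N) ℂ) :=
  {y | ∃ (x : Matrix (Fin r) (Fin r) ℂ) (μ : ℂ) (X : Fin N → Matrix (Fin n) (Fin n) ℂ),
    Respects Q X μ ∧ y = total x μ X}

/-- the fibre product of `T₀` and the torsor of the polarisations: the matrices `x ⊕ μ ⊕ X` such that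
`x ⊕ μ` is in `T₀` and `X` respects the polarisations with the multiplier `μ` -/
def fibreProduct (Q : Fin N → Matrix (Fin n) (Fin n) ℂ)
    (T₀ : Set (Matrix (Fin r ⊕ Unit) (Fin r ⊕ Unit) ℂ)) : Set (Matrix (Ix r n N) (Ix r n N) ℂ) :=
  {y | ∃ (x : Matrix (Fin r) (Fin r) ℂ) (μ : ℂ) (X : Fin N → Matrix (Fin n) (Fin n) ℂ),
    withTate x μ ∈ T₀ ∧ Respects Q X μ ∧ y = total x μ X}

/-- the projection to `M_0 ⊕ ℚ(-w)` -/
def proj (T : Set (Matrix (Ix r n N) (Ix r n N) ℂ)) :
    Set (Matrix (Fin r ⊕ Unit) (Fin r ⊕ Unit) ℂ) :=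
  {w | ∃ (x : Matrix (Fin r) (Fin r) ℂ) (μ : ℂ) (X : Fin N → Matrix (Fin n) (Fin n) ℂ),
    w = withTate x μ ∧ total x μ X ∈ T}

/-- The action of an invertible matrix on the mixed tensors of type `(p, q)`: it acts by `x` on the
first `p` indices and by the contragredient on the others. -/
noncomputable def tens {B : Type} [Fintype B] [DecidableEq B] (p q : ℕ) (x : Matrix B B ℂ) :
    Matrix ((Fin p → B) × (Fin q → B)) ((Fin p → B) × (Fin q → B)) ℂ :=
  Matrix.of fun I J => (∏ s, x (I.1 s) (J.1 s)) * ∏ t, x⁻¹ (J.2 t) (I.2 t)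

/-- 1: every de Rham-Betti subobject of `End(M)` is stable under the conjugation by `1 × Sp_n^N` -/
def SubStable (K : Subfield ℂ) (C₀ : Matrix (Fin r) (Fin r) ℂ) (l : ℂ)
    (c : Fin N → Matrix (Fin n) (Fin n) ℂ) : Prop :=
  ∀ L R : Submodule ℂ (Matrix (Ix r n N) (Ix r n N) ℂ), IsSubobject K (total C₀ l c) L R →
    ∀ g : Fin N → Matrix (Fin n) (Fin n) ℂ, Symplectic g →
      ∀ w ∈ L, total 1 1 g * w * (total 1 1 g)⁻¹ ∈ L

/-- 2: every `K`-subtorsor which contains the period matrix and respects the decomposition and the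
polarisations is the fibre product of its projection, which is a `K`-subtorsor, and the torsor of the
polarisations -/
def AllFibre (K : Subfield ℂ) (Q : Fin N → Matrix (Fin n) (Fin n) ℂ)
    (C₀ : Matrix (Fin r) (Fin r) ℂ) (l : ℂ) (c : Fin N → Matrix (Fin n) (Fin n) ℂ) : Prop :=
  ∀ T : Set (Matrix (Ix r n N) (Ix r n N) ℂ), IsSubtorsor K T → total C₀ l c ∈ T →
    T ⊆ respecting r Q → IsSubtorsor K (proj T) ∧ T = fibreProduct Q (proj T)

/-- 3: the smallest `K`-subtorsor is the fibre product of the one of `M_0 ⊕ ℚ(-w)` and the torsor of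
the polarisations -/
def SmallestFibre (K : Subfield ℂ) (Q : Fin N → Matrix (Fin n) (Fin n) ℂ)
    (C₀ : Matrix (Fin r) (Fin r) ℂ) (l : ℂ) (c : Fin N → Matrix (Fin n) (Fin n) ℂ) : Prop :=
  ∃ Ω₀, IsOmega K (withTate C₀ l) Ω₀ ∧ IsOmega K (total C₀ l c) (fibreProduct Q Ω₀)

/-- the linear relations over `K` between the entries of `c⁻¹ A c`, `A` rational over `K`, remain true
if `c_1, …, c_N` are replaced by matrices which respect the polarisations with the same multiplier -/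
def LinearTrivial (K : Subfield ℂ) (Q : Fin N → Matrix (Fin n) (Fin n) ℂ)
    (C₀ : Matrix (Fin r) (Fin r) ℂ) (l : ℂ) (c : Fin N → Matrix (Fin n) (Fin n) ℂ) : Prop :=
  ∀ A U : Matrix (Ix r n N) (Ix r n N) K,
    ∑ i, ∑ j, (U i j : ℂ) * ((total C₀ l c)⁻¹ * A.map (algebraMap K ℂ) * total C₀ l c) i j = 0 →
    ∀ X : Fin N → Matrix (Fin n) (Fin n) ℂ, Respects Q X l →
      ∑ i, ∑ j, (U i j : ℂ) * ((total C₀ l X)⁻¹ * A.map (algebraMap K ℂ) * total C₀ l X) i j = 0

/-- every de Rham-Betti class with coefficients in `K` (`a` on the de Rham side, `b` on the Betti side)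
in every tensor space of `M` is invariant under `1 × Sp_n^N` -/
def ClassesInvariant (K : Subfield ℂ) (C₀ : Matrix (Fin r) (Fin r) ℂ) (l : ℂ)
    (c : Fin N → Matrix (Fin n) (Fin n) ℂ) : Prop :=
  ∀ (p q : ℕ) (a b : (Fin p → Ix r n N) × (Fin q → Ix r n N) → K),
    Matrix.mulVec (tens p q (total C₀ l c)) (fun J => (a J : ℂ)) = (fun I => (b I : ℂ)) →
    ∀ g : Fin N → Matrix (Fin n) (Fin n) ℂ, Symplectic g →
      Matrix.mulVec (tens p q (total 1 1 g)) (fun I => (b I : ℂ)) = fun I => (b I : ℂ)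

/-- the data: algebraic numbers, invertible period matrix of `M_0`, polarisations, and period matrices
`c_j` which are not proportional to algebraic matrices -/
structure IsDatum (K : Subfield ℂ) (Q : Fin N → Matrix (Fin n) (Fin n) ℂ)
    (C₀ : Matrix (Fin r) (Fin r) ℂ) (l : ℂ) (c : Fin N → Matrix (Fin n) (Fin n) ℂ) : Prop where
  algebraic : ∀ x ∈ K, IsAlgebraic ℚ x
  base : IsUnit C₀
  deRham : ∀ j a b, Q j a b ∈ K
  multiplier : l ≠ 0
  respects : Respects Q c l
  nonalgebraic : ∀ j, ¬ ∃ (ν : ℂ) (a : Matrix (Fin n) (Fin n) ℂ),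
    (∀ i k, IsAlgebraic ℚ (a i k)) ∧ c j = ν • a

theorem withTate_unit {x : Matrix (Fin r) (Fin r) ℂ} (hx : IsUnit x) {μ : ℂ} (hμ : μ ≠ 0) :
    IsUnit (withTate x μ) := by
  rw [Matrix.isUnit_iff_isUnit_det] at hx ⊢
  have h1 : (Matrix.of fun _ _ => μ : Matrix Unit Unit ℂ).det = μ := by
    rw [Matrix.det_unique]
    rfl
  unfold withTate
  rw [Matrix.det_fromBlocks_zero₂₁, h1]
  exact hx.mul (isUnit_iff_ne_zero.2 hμ)

theorem withTate_one : withTate (1 : Matrix (Fin r) (Fin r) ℂ) 1 = 1 := by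
  unfold withTate
  have : (Matrix.of fun _ _ => 1 : Matrix Unit Unit ℂ) = 1 := by
    ext ⟨⟩ ⟨⟩
    simp
  rw [this]
  exact Matrix.fromBlocks_one

theorem total_one (g : Fin N → Matrix (Fin n) (Fin n) ℂ) :
    total (1 : Matrix (Fin r) (Fin r) ℂ) 1 g = Pool.Agent.Y123.SR.E2 1 g := by
  unfold total Pool.Agent.Y123.SR.E2
  rw [withTate_one]

theorem cm_withTate (x : Matrix (Fin r) (Fin r) ℂ) (μ : ℂ) :
    Pool.Agent.Y123.SR.Cm (Sum.inr ()) (withTate x μ) := by
  rintro (k | ⟨⟩) hk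
  · exact ⟨rfl, rfl⟩
  · exact absurd rfl hk

theorem eq_withTate {x : Matrix (Fin r ⊕ Unit) (Fin r ⊕ Unit) ℂ}
    (h2 : Pool.Agent.Y123.SR.Cm (Sum.inr ()) x) :
    x = withTate (Matrix.of fun i j => x (Sum.inl i) (Sum.inl j)) (x (Sum.inr ()) (Sum.inr ())) := by
  ext i j
  rcases i with i | ⟨⟩
  · rcases j with j | ⟨⟩
    · rfl
    · exact (h2 (Sum.inl i) (by simp)).2
  · rcases j with j | ⟨⟩
    · exact (h2 (Sum.inl j) (by simp)).1
    · rfl

theorem fibreProduct_eq (Q : Fin N → Matrix (Fin n) (Fin n) ℂ)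
    {Ω₀ : Set (Matrix (Fin r ⊕ Unit) (Fin r ⊕ Unit) ℂ)} (hΩ : ∀ x ∈ Ω₀, IsUnit x) :
    Pool.Agent.Y123.SR.FP (fun j => (-1 / 2 : ℂ) • Q j) (Sum.inr ()) Ω₀ = fibreProduct Q Ω₀ := by
  ext y
  constructor
  · rintro ⟨x, X, h1, h2, h3, rfl⟩
    have h4 := eq_withTate h2
    refine ⟨Matrix.of fun i j => x (Sum.inl i) (Sum.inl j), x (Sum.inr ()) (Sum.inr ()), X, ?_,
      fun j => Pool.Agent.Y123.ST.rel_iff.2 (h3.2 j), ?_⟩
    · rw [← h4]
      exact h1
    · unfold Pool.Agent.Y123.SR.E2 total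
      rw [← h4]
  · rintro ⟨x, μ, X, h1, h2, rfl⟩
    have hcm := cm_withTate x μ
    have h0 := (Pool.Agent.Y123.SR.cm_inv (hΩ _ h1) hcm).2.1
    exact ⟨withTate x μ, X, h1, hcm, ⟨h0, fun j => Pool.Agent.Y123.ST.rel_iff.1 (h2 j)⟩, rfl⟩

theorem unit_block {x : Matrix (Fin r) (Fin r) ℂ} {μ : ℂ} {X : Fin N → Matrix (Fin n) (Fin n) ℂ}
    (h : IsUnit (total x μ X)) : IsUnit (withTate x μ) := by
  rw [Matrix.isUnit_iff_isUnit_det] at h ⊢
  unfold total at h
  rw [Matrix.det_fromBlocks_zero₂₁] at h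
  exact isUnit_of_mul_isUnit_left h

theorem respecting_sub (Q : Fin N → Matrix (Fin n) (Fin n) ℂ)
    {T : Set (Matrix (Ix r n N) (Ix r n N) ℂ)}
    (hT : ∀ x ∈ T, IsUnit x) (h : T ⊆ respecting r Q) :
    T ⊆ Pool.Agent.Y123.SR.FP (fun j => (-1 / 2 : ℂ) • Q j) (Sum.inr ()) {x | IsUnit x} := by
  intro y hy
  obtain ⟨x, μ, X, h1, rfl⟩ := h hy
  have h2 := unit_block (hT _ hy)
  have hcm := cm_withTate x μ
  exact ⟨withTate x μ, X, h2, hcm, ⟨(Pool.Agent.Y123.SR.cm_inv h2 hcm).2.1,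
    fun j => Pool.Agent.Y123.ST.rel_iff.1 (h1 j)⟩, rfl⟩

theorem sub_respecting (Q : Fin N → Matrix (Fin n) (Fin n) ℂ)
    {T : Set (Matrix (Ix r n N) (Ix r n N) ℂ)}
    (h : T ⊆ Pool.Agent.Y123.SR.FP (fun j => (-1 / 2 : ℂ) • Q j) (Sum.inr ()) {x | IsUnit x}) :
    T ⊆ respecting r Q := by
  intro y hy
  obtain ⟨x, X, h1, h2, h3, rfl⟩ := h hy
  have h4 := eq_withTate h2
  refine ⟨Matrix.of fun i j => x (Sum.inl i) (Sum.inl j), x (Sum.inr ()) (Sum.inr ()), X,
    fun j => Pool.Agent.Y123.ST.rel_iff.2 (h3.2 j), ?_⟩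
  unfold Pool.Agent.Y123.SR.E2 total
  rw [← h4]

theorem proj_eq (Q : Fin N → Matrix (Fin n) (Fin n) ℂ) {T : Set (Matrix (Ix r n N) (Ix r n N) ℂ)}
    (h : T ⊆ respecting r Q) : {x | ∃ X, Pool.Agent.Y123.SR.E2 x X ∈ T} = proj T := by
  ext w
  constructor
  · rintro ⟨X, hX⟩
    obtain ⟨x, μ, X', h1, h2⟩ := h hX
    obtain ⟨h3, h4⟩ := Pool.Agent.Y123.SR.E2_inj (show Pool.Agent.Y123.SR.E2 w X =
      Pool.Agent.Y123.SR.E2 (withTate x μ) X' from h2)
    refine ⟨x, μ, X, h3, ?_⟩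
    rw [h3] at hX
    exact hX
  · rintro ⟨x, μ, X, rfl, h1⟩
    exact ⟨X, h1⟩

theorem sub_iff {K : Subfield ℂ} {C₀ : Matrix (Fin r) (Fin r) ℂ} {l : ℂ}
    {c : Fin N → Matrix (Fin n) (Fin n) ℂ} :
    SubStable K C₀ l c ↔ Pool.Agent.V11322.QR.SubStable2 K (withTate C₀ l) c := by
  constructor
  · intro h L R hLR g hg w hw
    have h1 := h L R hLR g (fun j => Pool.Agent.V11322.QR.sp_iff.2 (hg j)) w hw
    rwa [total_one] at h1
  · intro h L R hLR g hg w hw
    have h1 := h L R hLR g (fun j => Pool.Agent.V11322.QR.sp_iff.1 (hg j)) w hw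
    rwa [total_one]

theorem result (hn : Even n) (K : Subfield ℂ) (Q : Fin N → Matrix (Fin n) (Fin n) ℂ)
    (C₀ : Matrix (Fin r) (Fin r) ℂ) (l : ℂ) (c : Fin N → Matrix (Fin n) (Fin n) ℂ)
    (h : IsDatum K Q C₀ l c) :
    (SubStable K C₀ l c ↔ AllFibre K Q C₀ l c) ∧
    (SubStable K C₀ l c ↔ SmallestFibre K Q C₀ l c) ∧
    (LinearTrivial K Q C₀ l c → SubStable K C₀ l c) ∧
    (SubStable K C₀ l c → ClassesInvariant K C₀ l c) := by
  have hu : IsUnit (withTate C₀ l) := withTate_unit h.base h.multiplier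
  have hcm := cm_withTate C₀ l
  have hQ := Pool.Agent.Y123.ST.half_mem (K := K) h.deRham
  have hc : (c, (withTate C₀ l) (Sum.inr ()) (Sum.inr ())) ∈
      Pool.Agent.Y118.HP.Tor (fun j => (-1 / 2 : ℂ) • Q j) :=
    ⟨h.multiplier, fun j => Pool.Agent.Y123.ST.rel_iff.1 (h.respects j)⟩
  -- 1 → all
  have h12 : SubStable K C₀ l c → Pool.Agent.V11322.QR.AllFP K (fun j => (-1 / 2 : ℂ) • Q j)
      (Sum.inr ()) (withTate C₀ l) c := fun hs =>
    Pool.Agent.V11322.QR.all_of_cs hn h.algebraic hQ hc h.nonalgebraic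
      (Pool.Agent.V11322.QR.cs_of_sub (sub_iff.1 hs))
  -- all ↔ 2
  have hall : Pool.Agent.V11322.QR.AllFP K (fun j => (-1 / 2 : ℂ) • Q j)
      (Sum.inr ()) (withTate C₀ l) c ↔ AllFibre K Q C₀ l c := by
    constructor
    · intro ha T hT hcT hTr
      have hT' := Pool.Agent.Y123.ST.subT_iff.1 hT
      have h1 := respecting_sub Q hT'.isUnit hTr
      obtain ⟨h2, h3⟩ := ha T hT' hcT h1
      rw [proj_eq Q hTr] at h2 h3
      refine ⟨Pool.Agent.Y123.ST.subT_iff.2 h2, ?_⟩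
      rwa [fibreProduct_eq Q h2.isUnit] at h3
    · intro ha T hT hcT hTF
      have hTr := sub_respecting Q hTF
      obtain ⟨h2, h3⟩ := ha T (Pool.Agent.Y123.ST.subT_iff.2 hT) hcT hTr
      rw [proj_eq Q hTr]
      have h2' := Pool.Agent.Y123.ST.subT_iff.1 h2
      exact ⟨h2', by rwa [fibreProduct_eq Q h2'.isUnit]⟩
  -- all → 3
  have h23 : Pool.Agent.V11322.QR.AllFP K (fun j => (-1 / 2 : ℂ) • Q j)
      (Sum.inr ()) (withTate C₀ l) c → SmallestFibre K Q C₀ l c := by
    intro ha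
    obtain ⟨Ω₀, hΩ⟩ := Pool.Agent.V11322.QR.exists_om (K := K) hu
    refine ⟨Ω₀, hΩ, ?_⟩
    have h1 := Pool.Agent.V11322.QR.om_of_all2 hn hQ hu hcm hc ha hΩ
    rw [fibreProduct_eq Q (Pool.Agent.Y123.ST.subT_iff.1 hΩ.1).isUnit] at h1
    exact h1
  -- 3 → 1
  have h31 : SmallestFibre K Q C₀ l c → SubStable K C₀ l c := by
    rintro ⟨Ω₀, hΩ, h1⟩
    have hΩ' : Pool.Agent.Y123.ST.Om K (withTate C₀ l) Ω₀ := hΩ
    rw [← fibreProduct_eq Q (Pool.Agent.Y123.ST.subT_iff.1 hΩ'.1).isUnit] at h1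
    exact sub_iff.2 (Pool.Agent.V11322.QR.sub_of_om hn hu hcm hc hΩ.2.1 h1)
  refine ⟨⟨fun hs => hall.1 (h12 hs), fun ha => h31 (h23 (hall.2 ha))⟩,
    ⟨fun hs => h23 (h12 hs), h31⟩, fun hl => ?_, fun hs => ?_⟩
  · -- the linear relations
    refine h31 (h23 (Pool.Agent.V11322.QR.all_of_cs hn h.algebraic hQ hc h.nonalgebraic
      fun T hT hcT => Pool.Agent.Y123.SR.cstab2 hT hc hcT ?_))
    intro A u hA hu' h0 X hX
    have hconv : ∀ Y : Fin N → Matrix (Fin n) (Fin n) ℂ,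
        ∑ b, u b * Pool.Agent.Y123.ST.fl ((Pool.Agent.Y123.SR.E2 (withTate C₀ l) Y)⁻¹ * A *
          Pool.Agent.Y123.SR.E2 (withTate C₀ l) Y) b =
        ∑ i, ∑ j, ((Matrix.of fun i j => (⟨u (i, j), hu' (i, j)⟩ : K)) i j : ℂ) *
          ((total C₀ l Y)⁻¹ * (Matrix.of fun i j => (⟨A i j, hA i j⟩ : K)).map (algebraMap K ℂ) *
            total C₀ l Y) i j := by
      intro Y
      rw [Fintype.sum_prod_type]
      rfl
    rw [hconv] at h0 ⊢
    exact hl _ _ h0 X fun j => Pool.Agent.Y123.ST.rel_iff.2 (hX.2 j)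
  · -- the classes
    intro p q a b hab g hg
    obtain ⟨Ω₀, hΩ, h1⟩ := h23 (h12 hs)
    have hΩ' : Pool.Agent.Y123.ST.Om K (withTate C₀ l) Ω₀ := hΩ
    have hT := Pool.Agent.Y123.GN.class_sub (K := K) (M := Ix r n N) (p := p) (q := q)
      (fun J => (a J : ℂ)) (fun I => (b I : ℂ)) (fun J => (a J).2) (fun I => (b I).2)
    have hcu : IsUnit (total C₀ l c) := Pool.Agent.Y123.SR.E2_isUnit hu fun j =>
      (Pool.Agent.Y123.ST.tor_det hn hc.1 (hc.2 j)).1
    have h2 := h1.2.2 _ (Pool.Agent.Y123.ST.subT_iff.2 hT) ⟨hcu, hab⟩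
    have h3 : total C₀ l (fun j => g j * c j) ∈ fibreProduct Q Ω₀ := by
      refine ⟨C₀, l, _, hΩ.2.1, fun j => ?_, rfl⟩
      have h4 := Pool.Agent.Y123.SR.sp_tor hc fun j => Pool.Agent.V11322.QR.sp_iff.1 (hg j)
      exact Pool.Agent.Y123.ST.rel_iff.2 (h4.2 j)
    obtain ⟨-, h5⟩ := h2 h3
    have h6 : total C₀ l (fun j => g j * c j) = total 1 1 g * total C₀ l c := by
      rw [total_one]
      show Pool.Agent.Y123.SR.E2 (withTate C₀ l) (fun j => g j * c j) =
        Pool.Agent.Y123.SR.E2 1 g * Pool.Agent.Y123.SR.E2 (withTate C₀ l) c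
      rw [Pool.Agent.Y123.SR.E2_mul, one_mul]
    rw [h6, Pool.Agent.Y123.GN.tn_mul, ← Matrix.mulVec_mulVec] at h5
    have h7 : Matrix.mulVec (Pool.Agent.Y123.GN.tn p q (total C₀ l c)) (fun J => (a J : ℂ)) =
      fun I => (b I : ℂ) := hab
    rw [h7] at h5
    exact h5

end Pool.Agent.Results.MP_470b79_ag.RelativeSubobjects
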