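import Pool.Agent.Results.MP_f11a48_ag.InvariantTensorsNearPoints

/-!
# The torsors of the de Rham-Betti classes of the fibres near a point are stable under the monodromy

For finitely many families of motives (algebraic connections with a fundamental matrix, `Family`) and a point `s` over a
number field `K ⊂ ℂ` let `M_s` be the sum of the fibres, `Y(s) = periods F s` its period matrix (rows: Betti basis, columns:
de Rham basis). The torsor `Ω ^ dRB` of `M_s` is cut out by the de Rham-Betti classes: it consists of the invertible matrices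
`Z` with `Z ^ ⊗n φ = Φ Z ^ ⊗m` for all pairs `(φ, Φ)` with `Y(s) ^ ⊗n φ = Φ Y(s) ^ ⊗m`, `φ` over `K` and `Φ` over `ℚ` (in Tate
twists: `Φ` over `ℚ` times powers of `2 π i`). For a set `P` of pairs let `Torsor F ξ K k T s P` be the same with the classes in
`P` of type `(n, m)`, `n, m ≤ k`, and height at most `T ^ k` only: if `P` consists of the pairs with `Φ` over `ℤ`, these are the
equations of `Ω ^ dRB` of bounded type and height; one may also admit all `Φ` over `K`, for example.

**Theorem.** For one parameter there is a set `E` of Hausdorff dimension zero such that for all points `z` of the domain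
outside of `E`, all `w > 0`, all `K`, all `k` and all large `T`, at ALL points `s` over `K` of height at most `T` at distance at
most `T ^ (-w)` from `z` and for all `P`, the torsor `Torsor F ξ K k T s P` is stable under the identity component of the
differential Galois group (the Zariski closure of the monodromy), so that it contains the orbit of the period matrix. For
bases of dimension `d` the exceptional set has dimension at most `2 D (d - 1) / w`, for all fields of degree at most `D`.

So the equations of `Ω ^ dRB` of bounded type and height are, for all fibres at the points `s`, invariant under the monodromy,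
as those of `Ω ^ And` are.
-/

set_option autoImplicit false

open Filter NumberField

namespace Pool.Agent.Results.MP_470b79_ag.TorsorsNearPoints

open Pool.Agent.Results.MP_f11a48_ag.InvariantTensorsNearPoints

theorem tensorPower_mul {I : Type} [Fintype I] [DecidableEq I] (n : ℕ) (A B : Matrix I I ℂ) :
    tensorPower n (A * B) = tensorPower n A * tensorPower n B := by
  ext a b
  simp only [tensorPower, Matrix.of_apply, Matrix.mul_apply]
  rw [Finset.prod_univ_sum]
  simp only [Fintype.piFinset_univ, Finset.prod_mul_distrib]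

theorem tensorPower_one {I : Type} [Fintype I] [DecidableEq I] (n : ℕ) :
    tensorPower n (1 : Matrix I I ℂ) = 1 := by
  ext a b
  simp only [tensorPower, Matrix.of_apply, Matrix.one_apply]
  by_cases h : a = b
  · subst h
    simp
  · rw [if_neg h]
    obtain ⟨i, hi⟩ := Function.ne_iff.1 h
    exact Finset.prod_eq_zero (Finset.mem_univ i) (if_neg hi)

section
variable {κ : Type} [Fintype κ] [DecidableEq κ] {X ι : κ → Type} [∀ j, Fintype (X j)] [∀ j, DecidableEq (X j)]
  [∀ j, Fintype (ι j)] [∀ j, DecidableEq (ι j)]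

/-- a set of pairs `(φ, β)`, `φ` an integral matrix of type `(n, m)` and `β` a `k`-tuple of such matrices -/
abbrev Pairs (ι : κ → Type) (K : IntermediateField ℚ ℂ) [NumberField K] (k : ℕ) : Type :=
  ∀ n m : ℕ, Matrix (Fin n → Σ j, ι j) (Fin m → Σ j, ι j) (𝓞 K) →
    (Fin k → Matrix (Fin n → Σ j, ι j) (Fin m → Σ j, ι j) (𝓞 K)) → Prop

/-- the invertible matrices `Z` which satisfy `Z ^ ⊗n φ = Φ Z ^ ⊗m` for all the de Rham-Betti classes `(φ, Φ)` of the fibre
at `s` (that is, `Y(s) ^ ⊗n φ = Φ Y(s) ^ ⊗m`) with `n, m ≤ k`, `Φ = ∑ ξ i * β i`, and `φ`, `β i` over the integers of `K`,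
all conjugates of their entries being at most `T ^ k`, for which `(φ, β)` belongs to `P` -/
def Torsor (F : ∀ j, Family (X j) (ι j)) (ξ : ℕ → ℂ) (K : IntermediateField ℚ ℂ) [NumberField K] (k : ℕ) (T : ℝ)
    (s : (Σ j, X j) → K) (P : Pairs ι K k) : Set (Matrix (Σ j, ι j) (Σ j, ι j) ℂ) :=
  {Z | IsUnit Z ∧ ∀ n m : ℕ, n ≤ k → m ≤ k → ∀ (φ : Matrix (Fin n → Σ j, ι j) (Fin m → Σ j, ι j) (𝓞 K))
      (β : Fin k → Matrix (Fin n → Σ j, ι j) (Fin m → Σ j, ι j) (𝓞 K)), P n m φ β →
      (∀ a b (ψ : K →+* ℂ), ‖ψ (φ a b : K)‖ ≤ T ^ (k : ℝ)) →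
      (∀ i a b (ψ : K →+* ℂ), ‖ψ (β i a b : K)‖ ≤ T ^ (k : ℝ)) →
      tensorPower n (periods F fun i => (s i : ℂ)) * φ.map (fun x => algebraMap K ℂ (x : K)) =
        combination (algebraMap K ℂ) (fun i => ξ i) β * tensorPower m (periods F fun i => (s i : ℂ)) →
      tensorPower n Z * φ.map (fun x => algebraMap K ℂ (x : K)) =
        combination (algebraMap K ℂ) (fun i => ξ i) β * tensorPower m Z}

/-- At all points `s` of the domain with coordinates in `K` of height at most `T` and with `‖s - z‖ ≤ T ^ (-w)` and for all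
`P` the torsor contains the period matrix `Y(s)` and is stable under the identity components: `Z` belongs to it if and only
if `g Z` does, for all `g = (g_j)` in the identity components of the Galois groups. -/
def StableNear (F : ∀ j, Family (X j) (ι j)) (ξ : ℕ → ℂ) (z : (Σ j, X j) → ℂ) (w : ℝ) (K : IntermediateField ℚ ℂ)
    [NumberField K] (k : ℕ) (T : ℝ) : Prop :=
  ∀ s : (Σ j, X j) → K, (fun i => (s i : ℂ)) ∈ domain F → (∀ i, HeightLe K T (s i)) →
    ‖(fun i => (s i : ℂ)) - z‖ ≤ T ^ (-w) → ∀ P : Pairs ι K k,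
    periods F (fun i => (s i : ℂ)) ∈ Torsor F ξ K k T s P ∧
    ∀ g : ∀ j, GL (ι j) ℂ, (∀ j, g j ∈ identityComponent (F j).galois) →
      ∀ Z : Matrix (Σ j, ι j) (Σ j, ι j) ℂ, Z ∈ Torsor F ξ K k T s P ↔ action g * Z ∈ Torsor F ξ K k T s P

theorem action_mul_inv (g : ∀ j, GL (ι j) ℂ) : action g * action (fun j => (g j)⁻¹) = 1 := by
  unfold action
  rw [← Matrix.blockDiagonal'_mul]
  have h : (fun j => (g j : Matrix (ι j) (ι j) ℂ) * (((g j)⁻¹ : GL (ι j) ℂ) : Matrix (ι j) (ι j) ℂ)) = 1 := by
    funext j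
    rw [← Units.val_mul, mul_inv_cancel, Units.val_one]
    rfl
  rw [h]
  exact Matrix.blockDiagonal'_one

theorem action_inv_mul (g : ∀ j, GL (ι j) ℂ) : action (fun j => (g j)⁻¹) * action g = 1 := by
  have h := action_mul_inv fun j => (g j)⁻¹
  simpa using h

theorem isUnit_action (g : ∀ j, GL (ι j) ℂ) : IsUnit (action g) :=
  ⟨⟨action g, action fun j => (g j)⁻¹, action_mul_inv g, action_inv_mul g⟩, rfl⟩

theorem isUnit_periods (F : ∀ j, Family (X j) (ι j)) {z : (Σ j, X j) → ℂ} (hz : z ∈ domain F) : IsUnit (periods F z) := by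
  have h1 : ∀ j, IsUnit ((F j).Y fun i => z ⟨j, i⟩).det := fun j => isUnit_iff_ne_zero.2 ((F j).det_ne _ (hz j))
  refine ⟨⟨periods F z, Matrix.blockDiagonal' fun j => ((F j).Y fun i => z ⟨j, i⟩)⁻¹, ?_, ?_⟩, rfl⟩
  · unfold periods
    rw [← Matrix.blockDiagonal'_mul]
    have h : (fun j => (F j).Y (fun i => z ⟨j, i⟩) * ((F j).Y fun i => z ⟨j, i⟩)⁻¹) = 1 := by
      funext j
      exact Matrix.mul_nonsing_inv _ (h1 j)
    rw [h]
    exact Matrix.blockDiagonal'_one
  · unfold periods
    rw [← Matrix.blockDiagonal'_mul]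
    have h : (fun j => ((F j).Y fun i => z ⟨j, i⟩)⁻¹ * (F j).Y (fun i => z ⟨j, i⟩)) = 1 := by
      funext j
      exact Matrix.nonsing_inv_mul _ (h1 j)
    rw [h]
    exact Matrix.blockDiagonal'_one

theorem stable_of_good {F : ∀ j, Family (X j) (ι j)} {ξ : ℕ → ℂ} {z : (Σ j, X j) → ℂ} {w : ℝ} {K : IntermediateField ℚ ℂ}
    [NumberField K] {k : ℕ} {T : ℝ} (h : GoodNear F ξ z w K k T) : StableNear F ξ z w K k T := by
  intro s hsU hs hz P
  refine ⟨⟨isUnit_periods F hsU, fun n m _ _ φ β _ _ _ h3 => h3⟩, fun g hg Z => ⟨?_, ?_⟩⟩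
  · rintro ⟨hu, hZ⟩
    refine ⟨(isUnit_action g).mul hu, fun n m hn hm φ β h0 h1 h2 h3 => ?_⟩
    have e1 := hZ n m hn hm φ β h0 h1 h2 h3
    have e2 := h s hs hz n m hn hm φ β h1 h2 h3 g hg
    rw [tensorPower_mul, tensorPower_mul, Matrix.mul_assoc, e1, ← Matrix.mul_assoc, e2, Matrix.mul_assoc]
  · rintro ⟨hu, hZ⟩
    have hinv := action_inv_mul g
    refine ⟨?_, fun n m hn hm φ β h0 h1 h2 h3 => ?_⟩
    · have h4 : Z = action (fun j => (g j)⁻¹) * (action g * Z) := by
        rw [← Matrix.mul_assoc, hinv, Matrix.one_mul]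
      rw [h4]
      exact (isUnit_action _).mul hu
    · have e1 := hZ n m hn hm φ β h0 h1 h2 h3
      have e2 := h s hs hz n m hn hm φ β h1 h2 h3 g hg
      rw [tensorPower_mul, tensorPower_mul, Matrix.mul_assoc, ← Matrix.mul_assoc (combination _ _ _), ← e2,
        Matrix.mul_assoc] at e1
      have e3 := congrArg (fun W => tensorPower n (action fun j => (g j)⁻¹) * W) e1
      simp only [← Matrix.mul_assoc, ← tensorPower_mul, hinv, tensorPower_one, Matrix.one_mul] at e3
      exact e3

/-- **Theorem.** Let `F_j`, `j` in a finite set, be families, `d` the dimension of the product of their bases, and `ξ i`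
any complex numbers (for example the powers of `2 π i`).
(1) If `d = 1` there is a set `E` of Hausdorff dimension `0` such that for all `z` in the domain outside of `E`, all
`w > 0`, all number fields `K ⊂ ℂ` and all `k`, the property `StableNear F ξ z w K k T` holds for all large `T`.
(2) In general for all `D` and `w > 0` there is a set `E` of Hausdorff dimension at most `2 D (d - 1) / w` such that for
all `z` in the domain outside of `E`, all number fields `K ⊂ ℂ` of degree at most `D` and all `k`, the property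
`StableNear F ξ z w K k T` holds for all large `T`. -/
theorem result [Nonempty (Σ j, X j)] (F : ∀ j, Family (X j) (ι j)) (ξ : ℕ → ℂ) :
    (Fintype.card (Σ j, X j) = 1 → ∃ E : Set ((Σ j, X j) → ℂ), dimH E = 0 ∧ ∀ z ∈ domain F, z ∉ E → ∀ w : ℝ, 0 < w →
      ∀ (K : IntermediateField ℚ ℂ) [NumberField K], ∀ k : ℕ, ∀ᶠ T : ℝ in atTop, StableNear F ξ z w K k T) ∧
    ∀ (D : ℕ) (w : ℝ), 0 < w → ∃ E : Set ((Σ j, X j) → ℂ),
      dimH E ≤ ENNReal.ofReal (2 * D * ((Fintype.card (Σ j, X j) : ℝ) - 1) / w) ∧ ∀ z ∈ domain F, z ∉ E →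
        ∀ (K : IntermediateField ℚ ℂ) [NumberField K], Module.finrank ℚ K ≤ D → ∀ k : ℕ,
          ∀ᶠ T : ℝ in atTop, StableNear F ξ z w K k T := by
  obtain ⟨h1, h2⟩ := Pool.Agent.Results.MP_f11a48_ag.InvariantTensorsNearPoints.result F ξ
  refine ⟨fun hc => ?_, fun D w hw => ?_⟩
  · obtain ⟨E, hE, h⟩ := h1 hc
    exact ⟨E, hE, fun z hz hzE w hw K _ k => (h z hz hzE w hw K k).mono fun T hT => stable_of_good hT⟩
  · obtain ⟨E, hE, h⟩ := h2 D w hw
    exact ⟨E, hE, fun z hz hzE K _ hK k => (h z hz hzE K hK k).mono fun T hT => stable_of_good hT⟩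

end

end Pool.Agent.Results.MP_470b79_ag.TorsorsNearPoints
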