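import Pool.Agent.Results.MP_470b79_ag.MonodromyTorsors
import Pool.Agent.V11286.NE.Vol

/-!
# De Rham-Betti groups of ALL fibres in short windows along sequences contain the connected monodromy group

Let `Z` be a fundamental matrix, regular at `z = 0`, of a system `f Z' = Z A` over `ℚ(z)` such that the entries of `Z` and of
`W = Z⁻¹` are G-functions, for example the matrix of the Gauss-Manin connection of `h^i` of any family of smooth projective
varieties over `ℚ(z)` with good fibre at `z = 0`, let `Ω` be any invertible complex matrix (the periods of the fibre at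
`z = 0`), and let `M_x` be the fibre at `z = 1/x`, with period matrix `Ω Z(1/x)`.

The starting file `MonodromyTorsors` shows: for `M = M_0 ⊕ M_(m_1) ⊕ … ⊕ M_(m_k)` (`M_0` any de Rham-Betti object over a
number field `K`), every `K`-subtorsor of `Iso (M_dR, M_B)` which contains the period matrix is stable under the connected
monodromy group `1 × G^k`, every de Rham-Betti class in all tensor spaces of `M` is invariant under `1 × G^k`, and the group of
periods is normalised by the monodromy, for the tuples of separated integers in the windows `[N, N + N^c]`, outside a set of at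
most `C` (unknown) integers of the window.

Here there are no exceptional fibres. Let `v_l ≥ 1` be a sequence with exponent of convergence at most `τ`. For all `α > 0`
outside a set of Hausdorff dimension at most `(1 - c + τ) / (1 - θ)`, `θ ≤ c`, all number fields `K` of degree at most `D` and
all large `l`, the three conclusions hold for ALL `k`-tuples of separated integers in the window `|m - α v_l| ≤ v_l ^ θ`. If
the exponent of convergence is zero (for example `v_l = 2 ^ l`), almost every `α` works for all `k` and all number fields.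
-/

set_option autoImplicit false

open PowerSeries MeasureTheory Filter

namespace Pool.Agent.Results.MP_470b79_ag.WindowsWithoutExceptions

open Pool.Agent.Results.MP_470b79_ag.MonodromyTorsors

/-- The exponent of convergence of the sequence `v` is at most `τ`. -/
def ConvergenceExponentLe (v : ℕ → ℝ) (τ : ℝ) : Prop := ∀ s : ℝ, τ < s → Summable (fun n : ℕ => (v n) ^ (-s))

/-- All `k`-tuples of integers `m` with `|m_i - a| ≤ w` and distances at least `G` have the properties `Full` of the starting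
file: (1) for all sets `𝒩` of nilpotent matrices `N` in the span of their commutators such that the matrices `exp (t N)`
preserve the functional relations, every `K`-subtorsor which contains the period matrix of `M_0 ⊕ M_(m_1) ⊕ … ⊕ M_(m_k)` is
stable under `1 × G^k`, `G` the group generated by the `exp (t N)`; (2) every de Rham-Betti class of a tensor space is
invariant under `1 × G^k`; (3) the Lie algebra of the group of the torsor is normalised by the functional group. -/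
def AllFull {n r : ℕ} (k : ℕ) (K : Subfield ℂ) (C₀ : Matrix (Fin r) (Fin r) ℂ) (Ω : Matrix (Fin n) (Fin n) ℂ)
    (Z : Matrix (Fin n) (Fin n) ℚ⟦X⟧) (x₀ G : ℕ) (a w : ℝ) : Prop :=
  ∀ m : Fin k → ℕ, (∀ i j, i ≠ j → (G : ℤ) ≤ |(m i : ℤ) - m j|) → (∀ i, |(m i : ℝ) - a| ≤ w) → Full K C₀ Ω Z x₀ m

theorem countable_subfields : {K : Subfield ℂ | FiniteDimensional ℚ K}.Countable := by
  refine (Pool.Agent.V11286.NE.countable_fields.image fun K => K.toSubfield).mono ?_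
  intro K hK
  have hK' : FiniteDimensional ℚ K := hK
  refine ⟨K.toIntermediateField fun q => ?_, ?_, ?_⟩
  · exact SubfieldClass.ratCast_mem K q
  · exact hK'
  · rfl

/-- The theorem. The numbers `x₀` and `G` depend only on the family, `c` only on the family and on `k, D, r`. -/
theorem result (n : ℕ) (f : Polynomial ℚ) (A : Matrix (Fin n) (Fin n) (Polynomial ℚ)) (Z W : Matrix (Fin n) (Fin n) ℚ⟦X⟧)
    (hf : f.coeff 0 ≠ 0)
    (hode : ∀ i j, (f : ℚ⟦X⟧) * PowerSeries.derivative ℚ (Z i j) = ∑ k, Z i k * (A k j : ℚ⟦X⟧))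
    (hW : W * Z = 1) (hGZ : ∀ i j, GCond (Z i j)) (hGW : ∀ i j, GCond (W i j)) :
    ∃ x₀ G : ℕ,
      (∀ k D r : ℕ, ∃ c : ℝ, 0 < c ∧ c < 1 ∧ ∀ Ω : Matrix (Fin n) (Fin n) ℂ, IsUnit Ω →
        ∀ C₀ : Matrix (Fin r) (Fin r) ℂ, ∀ (v : ℕ → ℝ) (τ θ : ℝ), (∀ l, 1 ≤ v l) → 0 ≤ τ →
        ConvergenceExponentLe v τ → θ ≤ c →
        ∃ E : Set ℝ, dimH E ≤ ENNReal.ofReal ((1 - c + τ) / (1 - θ)) ∧ ∀ α : ℝ, 0 < α → α ∉ E →
          ∀ K : Subfield ℂ, FiniteDimensional ℚ K → Module.finrank ℚ K ≤ D →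
            ∃ l₀ : ℕ, ∀ l : ℕ, l₀ ≤ l → AllFull k K C₀ Ω Z x₀ G (α * v l) ((v l) ^ θ)) ∧
      (∀ Ω : Matrix (Fin n) (Fin n) ℂ, IsUnit Ω → ∀ (r : ℕ) (C₀ : Matrix (Fin r) (Fin r) ℂ),
        ∀ v : ℕ → ℝ, (∀ l, 1 ≤ v l) → ConvergenceExponentLe v 0 →
        ∀ᵐ α : ℝ, 0 < α → ∀ (k : ℕ) (K : Subfield ℂ), FiniteDimensional ℚ K → ∃ θ : ℝ, 0 < θ ∧
          ∃ l₀ : ℕ, ∀ l : ℕ, l₀ ≤ l → AllFull k K C₀ Ω Z x₀ G (α * v l) ((v l) ^ θ)) ∧
      (∀ Ω : Matrix (Fin n) (Fin n) ℂ, IsUnit Ω → ∀ (r : ℕ) (C₀ : Matrix (Fin r) (Fin r) ℂ),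
        ∀ᵐ α : ℝ, 0 < α → ∀ (k : ℕ) (K : Subfield ℂ), FiniteDimensional ℚ K → ∃ θ : ℝ, 0 < θ ∧
          ∃ l₀ : ℕ, ∀ l : ℕ, l₀ ≤ l → AllFull k K C₀ Ω Z x₀ G (α * 2 ^ l) ((2 : ℝ) ^ (θ * l))) := by
  obtain ⟨x₀, G, hmain⟩ := Pool.Agent.Results.MP_470b79_ag.MonodromyTorsors.result n f A Z W hf hode hW hGZ hGW
  refine ⟨x₀, G, ?_⟩
  have h1 : ∀ k D r : ℕ, ∃ c : ℝ, 0 < c ∧ c < 1 ∧ ∀ Ω : Matrix (Fin n) (Fin n) ℂ, IsUnit Ω →
        ∀ C₀ : Matrix (Fin r) (Fin r) ℂ, ∀ (v : ℕ → ℝ) (τ θ : ℝ), (∀ l, 1 ≤ v l) → 0 ≤ τ →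
        ConvergenceExponentLe v τ → θ ≤ c →
        ∃ E : Set ℝ, dimH E ≤ ENNReal.ofReal ((1 - c + τ) / (1 - θ)) ∧ ∀ α : ℝ, 0 < α → α ∉ E →
          ∀ K : Subfield ℂ, FiniteDimensional ℚ K → Module.finrank ℚ K ≤ D →
            ∃ l₀ : ℕ, ∀ l : ℕ, l₀ ≤ l → AllFull k K C₀ Ω Z x₀ G (α * v l) ((v l) ^ θ) := by
    intro k D r
    obtain ⟨⟨M, c, hc, h⟩, -⟩ := hmain k D r
    set c' : ℝ := min c 1 with hc'
    have hc'0 : 0 < c' := lt_min hc one_pos
    have hc'1 : c' ≤ 1 := min_le_right _ _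
    refine ⟨c' / 2, by positivity, by linarith, fun Ω hΩ C₀ v τ θ hv hτ hvτ hθ => ?_⟩
    have hK1 : ∀ K : Subfield ℂ, ∃ X : Set ℝ, dimH X ≤ ENNReal.ofReal ((1 - c' / 2 + τ) / (1 - θ)) ∧
        ∀ α : ℝ, 0 < α → α ∉ X → FiniteDimensional ℚ K → Module.finrank ℚ K ≤ D →
            ∃ l₀ : ℕ, ∀ l : ℕ, l₀ ≤ l → AllFull k K C₀ Ω Z x₀ G (α * v l) ((v l) ^ θ) := by
      intro K
      by_cases hKD : FiniteDimensional ℚ K ∧ Module.finrank ℚ K ≤ D
      · obtain ⟨hK, hKD⟩ := hKD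
        choose! S hS using fun m (hm : 1 ≤ m) => h Ω hΩ K hK hKD C₀ m hm
        obtain ⟨X, hX, hX2⟩ := Pool.Agent.V11286.NE.no_exc M (c := c') (b := c' / 2) (by positivity) (by linarith)
          hc'1 (fun m => if 1 ≤ m then S m else ∅) (fun m => by
            by_cases hm : 1 ≤ m
            · simp only [hm, if_true]
              exact (hS m hm).1
            · simp [hm]) hv hτ hvτ hθ
        refine ⟨X, hX, fun α hα hαX _ _ => ?_⟩
        obtain ⟨n₀, hn₀⟩ := hX2 α hα hαX 1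
        refine ⟨n₀, fun l hl t ht hti => ?_⟩
        obtain ⟨m, hm, hmt⟩ := hn₀ l hl
        refine (hS m hm).2 t ht fun i => ?_
        obtain ⟨a1, a2, a3⟩ := hmt (t i) (hti i)
        rw [if_pos hm] at a3
        have hm1 : (1 : ℝ) ≤ m := by exact_mod_cast hm
        have h5 : (m : ℝ) ^ c' ≤ (m : ℝ) ^ c := Real.rpow_le_rpow_of_exponent_le hm1 (min_le_left _ _)
        exact ⟨a1, by linarith, a3⟩
      · refine ⟨∅, by simp, fun α _ _ h1 h2 => absurd ⟨h1, h2⟩ hKD⟩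
    choose X hX hX2 using hK1
    refine ⟨⋃ K ∈ {K : Subfield ℂ | FiniteDimensional ℚ K}, X K, ?_, ?_⟩
    · rw [dimH_bUnion countable_subfields]
      exact iSup₂_le fun K _ => hX K
    · intro α hα hαE K hK hKD
      refine hX2 K α hα (fun hx => hαE ?_) hK hKD
      exact Set.mem_biUnion (show K ∈ {K : Subfield ℂ | FiniteDimensional ℚ K} from hK) hx
  have h2 : ∀ Ω : Matrix (Fin n) (Fin n) ℂ, IsUnit Ω → ∀ (r : ℕ) (C₀ : Matrix (Fin r) (Fin r) ℂ),
        ∀ v : ℕ → ℝ, (∀ l, 1 ≤ v l) → ConvergenceExponentLe v 0 →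
        ∀ᵐ α : ℝ, 0 < α → ∀ (k : ℕ) (K : Subfield ℂ), FiniteDimensional ℚ K → ∃ θ : ℝ, 0 < θ ∧
          ∃ l₀ : ℕ, ∀ l : ℕ, l₀ ≤ l → AllFull k K C₀ Ω Z x₀ G (α * v l) ((v l) ^ θ) := by
    intro Ω hΩ r C₀ v hv hv0
    have h3 : ∀ (k D : ℕ), ∀ᵐ α : ℝ, 0 < α → ∀ K : Subfield ℂ, FiniteDimensional ℚ K →
        Module.finrank ℚ K ≤ D → ∃ θ : ℝ, 0 < θ ∧
          ∃ l₀ : ℕ, ∀ l : ℕ, l₀ ≤ l → AllFull k K C₀ Ω Z x₀ G (α * v l) ((v l) ^ θ) := by
      intro k D
      obtain ⟨c, hc0, hc1, h4⟩ := h1 k D r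
      obtain ⟨X, hX, hX2⟩ := h4 Ω hΩ C₀ v 0 (c / 2) hv le_rfl hv0 (by linarith)
      have hX0 : volume X = 0 := Pool.Agent.V11286.NE.vol_zero (Pool.Agent.V11286.NE.ratio_lt hc0 hc1) hX
      have hae : ∀ᵐ α : ℝ, α ∉ X := measure_eq_zero_iff_ae_notMem.1 hX0
      filter_upwards [hae] with α hα hα0 K hK hKD
      exact ⟨c / 2, by positivity, hX2 α hα0 hα K hK hKD⟩
    have h5 : ∀ᵐ α : ℝ, ∀ (k D : ℕ), 0 < α → ∀ K : Subfield ℂ, FiniteDimensional ℚ K →
        Module.finrank ℚ K ≤ D → ∃ θ : ℝ, 0 < θ ∧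
          ∃ l₀ : ℕ, ∀ l : ℕ, l₀ ≤ l → AllFull k K C₀ Ω Z x₀ G (α * v l) ((v l) ^ θ) := by
      rw [ae_all_iff]
      intro k
      rw [ae_all_iff]
      intro D
      exact h3 k D
    filter_upwards [h5] with α h6 hα k K hK
    exact h6 k _ hα K hK le_rfl
  refine ⟨h1, h2, fun Ω hΩ r C₀ => ?_⟩
  have h3 := h2 Ω hΩ r C₀ (fun n => (2 : ℝ) ^ n) (fun n => one_le_pow₀ (by norm_num)) Pool.Agent.V11286.NE.expLe_two
  filter_upwards [h3] with α h4 hα k K hK
  obtain ⟨θ, hθ, n₀, h5⟩ := h4 hα k K hK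
  refine ⟨θ, hθ, n₀, fun l hl t ht hti => h5 l hl t ht fun i => ?_⟩
  refine (hti i).trans (le_of_eq ?_)
  show (2 : ℝ) ^ (θ * l) = ((2 : ℝ) ^ l) ^ θ
  rw [← Real.rpow_natCast, ← Real.rpow_mul (by norm_num), mul_comm]

end Pool.Agent.Results.MP_470b79_ag.WindowsWithoutExceptions
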